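import Mathlib
import Pool.Agent.MP_b3099b_gt.H93.Reg

set_option autoImplicit false

universe u

namespace Pool.Agent.Results.MP_b3099b_gt.Normal

open Set Filter Topology

/-- The topology of `X` is given by a semimetric whose balls are neighbourhoods of their centres. -/
def IsSemimetrizable (X : Type u) [TopologicalSpace X] : Prop :=
  ∃ d : X → X → ℝ, (∀ x y, 0 ≤ d x y) ∧ (∀ x y, d x y = d y x) ∧ (∀ x y, d x y = 0 ↔ x = y) ∧
    (∀ U : Set X, IsOpen U ↔ ∀ x ∈ U, ∃ ε : ℝ, 0 < ε ∧ {y | d x y < ε} ⊆ U) ∧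
    ∀ (x : X) (ε : ℝ), 0 < ε → {y | d x y < ε} ∈ nhds x

/-- Semistratifiable spaces. -/
def IsSemistratifiable (Y : Type) [TopologicalSpace Y] : Prop :=
  ∃ G : ℕ → Set Y → Set Y,
    (∀ (n : ℕ) (H : Set Y), IsClosed H → IsOpen (G n H) ∧ H ⊆ G n H) ∧
    (∀ H : Set Y, IsClosed H → H = ⋂ n, G n H) ∧
    ∀ (n : ℕ) (H K : Set Y), IsClosed H → IsClosed K → H ⊆ K → G n H ⊆ G n K

/-- Every point of the closure of a set is the limit of a sequence in the set. -/
def IsFrechet (Y : Type) [TopologicalSpace Y] : Prop :=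
  ∀ (A : Set Y) (x : Y), x ∈ closure A →
    ∃ s : ℕ → Y, (∀ n, s n ∈ A) ∧ Tendsto s atTop (nhds x)

/-- A countable normal `T1` space which is Frechet and semistratifiable, but is not the image
under a continuous closed map of any semimetrizable space, nor of any first countable space. -/
theorem result :
    ∃ (Y : Type) (_ : TopologicalSpace Y), Countable Y ∧ T4Space Y ∧
      IsFrechet Y ∧ IsSemistratifiable Y ∧
      ∀ (X : Type u) [TopologicalSpace X], IsSemimetrizable X ∨ FirstCountableTopology X →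
        ¬ ∃ f : X → Y, Continuous f ∧ IsClosedMap f ∧ Function.Surjective f := by
  obtain ⟨X, hX, 𝒜, ℬ, hCF, hCFB, horth, hsplit⟩ := MP_b3099b_gt.H93.exists_split_cf
  let τ := MP_b3099b_gt.H24.topo X ℬ
  have hT1 : T1Space MP_b3099b_gt.H24.Pt := MP_b3099b_gt.H24.topo_t1 X ℬ
  have hFr : FrechetUrysohnSpace MP_b3099b_gt.H24.Pt :=
    MP_b3099b_gt.H24.topo_frechet X ℬ fun Z hZ hp => (hsplit Z hZ hp).2
  refine ⟨MP_b3099b_gt.H24.Pt, τ, inferInstance, MP_b3099b_gt.H93.topo_t4 X ℬ hCFB,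
    fun A x hx => mem_closure_iff_seq_limit.mp hx, ?_, ?_⟩
  · obtain ⟨G, h1, h2, h3⟩ := MP_b3099b_gt.H24.semistrat_of_countable MP_b3099b_gt.H24.Pt
    refine ⟨fun n H => G H n, fun n H hH => ⟨h1 H hH n, ?_⟩, fun H hH => (h2 H hH).symm,
      fun n H K hH hK hHK => h3 H K hH hK hHK n⟩
    intro y hy
    rw [← h2 H hH] at hy
    exact mem_iInter.mp hy n
  · rintro W _ hW ⟨f, hf, hcl, hsurj⟩
    refine MP_b3099b_gt.H93.not_closed_image_univ X hX 𝒜 ℬ hCF horth
      (fun Z hZ hp => (hsplit Z hZ hp).1) W ?_ f hf hcl hsurj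
    intro x
    rcases hW with ⟨d, -, -, -, hop, hnb⟩ | hW
    · refine ⟨fun n => interior {y | d x y < 1 / ((n : ℝ) + 1)}, ?_, ?_, ?_⟩
      · intro m n hmn
        refine interior_mono ?_
        intro y hy
        have h1 : (1 : ℝ) / ((n : ℝ) + 1) ≤ 1 / ((m : ℝ) + 1) := Nat.one_div_le_one_div hmn
        exact lt_of_lt_of_le hy h1
      · intro n
        refine ⟨isOpen_interior, ?_⟩
        rw [mem_interior_iff_mem_nhds]
        exact hnb x _ Nat.one_div_pos_of_nat
      · intro V hV hxV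
        obtain ⟨ε, hε, hsub⟩ := (hop V).mp hV x hxV
        obtain ⟨n, hn⟩ := exists_nat_one_div_lt hε
        refine ⟨n, interior_subset.trans (Set.Subset.trans ?_ hsub)⟩
        intro y hy
        exact lt_trans hy hn
    · obtain ⟨B, hB⟩ := (nhds x).exists_antitone_basis
      refine ⟨fun n => interior (B n), fun m n hmn => interior_mono (hB.antitone hmn),
        fun n => ⟨isOpen_interior, mem_interior_iff_mem_nhds.mpr (hB.mem n)⟩, ?_⟩
      intro V hV hxV
      obtain ⟨n, hn⟩ := hB.mem_iff.mp (hV.mem_nhds hxV)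
      exact ⟨n, interior_subset.trans hn⟩

end Pool.Agent.Results.MP_b3099b_gt.Normal
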